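import Pool.Agent.H37.S3.CHN

/-!
# Walks with a sequence of keys

`Wlk p K N q o`: a walk `o 0, .., o N` of stationary law `p`; `o (i + 1)` is a fresh copy of
`o i` given the key `K i`. Budget of a function of the first point, and a good length.
-/

set_option autoImplicit false

namespace Pool.ALG8

open Finset Real
open Pool.Agent.H49.Ent Pool.Agent.H32.Dense Pool.STK Pool.KAF Pool.KAL Pool.KS3

/-- A walk: `o (i + 1)` is resampled given the key `K i` of `o i`. -/
structure Wlk {Ω Λ W : Type} [Fintype Ω] [Fintype W] (p : Ω → ℝ) (K : ℕ → Ω → Λ) (N : ℕ)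
    (q : W → ℝ) (o : ℕ → W → Ω) : Prop where
  isLaw : IsLaw q
  marg : ∀ i ≤ N, Marg q p (o i)
  key : ∀ w, 0 < q w → ∀ i < N, K i (o i w) = K i (o (i + 1) w)
  ci : ∀ i < N, CI q (o 0) (o (i + 1)) (fun w => K i (o i w))

theorem wlk_ex {Ω Λ : Type} [Fintype Ω] (p : Ω → ℝ) (hp : IsLaw p) (K : ℕ → Ω → Λ) (N : ℕ) :
    ∃ (W : Type) (_ : Fintype W) (q : W → ℝ) (o : ℕ → W → Ω), Wlk p K N q o := by
  classical
  induction N with
  | zero =>
    exact ⟨Ω, inferInstance, p, fun _ w => w, hp, fun _ _ => Marg.id p,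
      fun _ _ i hi => absurd hi (Nat.not_lt_zero i), fun i hi => absurd hi (Nat.not_lt_zero i)⟩
  | succ N ih =>
    obtain ⟨W, instW, q, o, hw⟩ := ih
    have hq0 := hw.isLaw.nonneg
    have hZ : ∀ z, law q (fun w => K N (o N w)) z = law p (K N) z := fun z =>
      (hw.marg N le_rfl).law (K N) z
    set Q := glue q p (fun w => K N (o N w)) (K N) with hQ
    have hQ0 : ∀ w, 0 ≤ Q w := glue_nonneg hq0 hp.nonneg
    have m1 : Marg Q q (fun w => w.1) := marg_fst hq0 hZ
    have m2 : Marg Q p (fun w => w.2) := marg_snd hp.nonneg hZ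
    have hQl : IsLaw Q := ⟨hQ0, by rw [m1.sum]; exact hw.isLaw.sum_one⟩
    set O : ℕ → W × Ω → Ω := fun i w => if i ≤ N then o i w.1 else w.2 with hO
    have eO : ∀ i ≤ N, O i = fun w => o i w.1 := by
      intro i hi
      funext w
      simp only [hO, if_pos hi]
    have eO' : O (N + 1) = fun w => w.2 := by
      funext w
      simp only [hO]
      rw [if_neg (by omega)]
    refine ⟨W × Ω, inferInstance, Q, O, hQl, ?_, ?_, ?_⟩
    · intro i hi
      rcases Nat.le_or_eq_of_le_succ hi with h | h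
      · rw [eO i h]
        exact m1.comp (hw.marg i h)
      · rw [h, eO']
        exact m2
    · intro w hw' i hi
      have hpos := (glue_pos_iff hq0 hp.nonneg w).mp hw'
      rcases Nat.lt_succ_iff_lt_or_eq.mp hi with h | h
      · rw [eO i h.le, eO (i + 1) h]
        exact hw.key w.1 hpos.1 i h
      · subst h
        rw [eO i le_rfl, eO']
        exact hpos.2.2
    · intro i hi
      rw [eO 0 (Nat.zero_le _)]
      rcases Nat.lt_succ_iff_lt_or_eq.mp hi with h | h
      · rw [eO i h.le, eO (i + 1) h]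
        exact (hw.ci i h).marg m1
      · subst h
        rw [eO i le_rfl, eO']
        exact CI_glue hq0 hp.nonneg hZ (o 0) (fun v => v)

section

variable {Ω Λ W : Type} [Fintype Ω] [Fintype W] {p : Ω → ℝ} {K : ℕ → Ω → Λ} {N : ℕ}
  {q : W → ℝ} {o : ℕ → W → Ω}

lemma Wlk.sub (h : Wlk p K N q o) {n : ℕ} (hn : n ≤ N) : Wlk p K n q o :=
  ⟨h.isLaw, fun i hi => h.marg i (hi.trans hn), fun w hw i hi => h.key w hw i (hi.trans_le hn),
    fun i hi => h.ci i (hi.trans_le hn)⟩

/-- A label which is a function of all the keys is constant. -/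
lemma Wlk.const (h : Wlk p K N q o) {L : Type} {lb : Ω → L}
    (hlb : ∀ i < N, Det p (K i) lb) {w : W} (hw : 0 < q w) :
    ∀ i ≤ N, lb (o i w) = lb (o 0 w) := by
  have hq0 := h.isLaw.nonneg
  intro i
  induction i with
  | zero => intro _; rfl
  | succ i ih =>
    intro hi
    rw [← ih (by omega)]
    exact (hlb i hi _ _ ((h.marg i (by omega)).pos hq0 hw) ((h.marg (i + 1) hi).pos hq0 hw)
      (h.key w hw i hi)).symm

/-- The information about a function of the first point decreases; the loss at a step is the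
information given the key. -/
lemma Wlk.step (h : Wlk p K N q o) {B : Type} (β : Ω → B) {i : ℕ} (hi : i < N) :
    CH q (fun w => β (o 0 w)) (fun w => K i (o i w)) =
      CH q (fun w => β (o 0 w)) (o (i + 1)) := by
  have hq0 := h.isLaw.nonneg
  have h1 : CI q (fun w => β (o 0 w)) (o (i + 1)) (fun w => K i (o i w)) :=
    (h.ci i hi).mono_left hq0 (fun _ _ _ _ e => congrArg β (Prod.ext_iff.mp e).1)
  unfold CI at h1
  rw [← h1]
  refine CH_congr hq0 (fun _ _ _ _ e => (Prod.ext_iff.mp e).1)
      (fun _ _ _ _ e => (Prod.ext_iff.mp e).1) ?_ ?_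
  · intro w w' _ _ e
    exact (Prod.ext_iff.mp e).1
  · intro w w' hw hw' e
    refine Prod.ext e ?_
    show K i (o i w) = K i (o i w')
    rw [h.key w hw i hi, h.key w' hw' i hi, e]

lemma Wlk.mono (h : Wlk p K N q o) {B : Type} (β : Ω → B) {i : ℕ} (hi : i < N) :
    CH q (fun w => β (o 0 w)) (o i) ≤ CH q (fun w => β (o 0 w)) (o (i + 1)) := by
  have hq0 := h.isLaw.nonneg
  rw [← h.step β hi]
  exact CH_mono_cond hq0 (fun _ _ _ _ e => congrArg (K i) e)

/-- Information of a function of the point about the first point, given the key. -/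
lemma Wlk.inf (h : Wlk p K N q o) {B Y : Type} (β : Ω → B) (y : Ω → Y) {i : ℕ} (hi : i < N) :
    CH p y (K i) - CH q (fun w => y (o i w)) (fun w => (β (o 0 w), K i (o i w))) ≤
      CH q (fun w => β (o 0 w)) (o (i + 1)) - CH q (fun w => β (o 0 w)) (o i) := by
  have hq0 := h.isLaw.nonneg
  have h0 : CH p y (K i) = CH q (fun w => y (o i w)) (fun w => K i (o i w)) :=
    ((h.marg i hi.le).CH y (K i)).symm
  have h1 := CH_chain hq0 (fun w => y (o i w)) (fun w => β (o 0 w)) (fun w => K i (o i w))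
  have h2 := CH_chain hq0 (fun w => β (o 0 w)) (fun w => y (o i w)) (fun w => K i (o i w))
  have h3 : CH q (fun w => (y (o i w), β (o 0 w))) (fun w => K i (o i w)) =
      CH q (fun w => (β (o 0 w), y (o i w))) (fun w => K i (o i w)) := by
    refine CH_congr hq0 ?_ ?_ (fun _ _ _ _ h => h) (fun _ _ _ _ h => h) <;>
    · intro ω ω' _ _ h
      simp only [Prod.mk.injEq] at h ⊢
      tauto
  have h4 : CH q (fun w => β (o 0 w)) (o i) ≤
      CH q (fun w => β (o 0 w)) (fun w => (y (o i w), K i (o i w))) := by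
    refine CH_mono_cond hq0 ?_
    intro w w' _ _ e
    have e' : o i w = o i w' := e
    simp only [e']
  rw [h0, ← h.step β hi]
  linarith

/-- The previous key: no information at all. -/
lemma Wlk.prev (h : Wlk p K N q o) {B Y : Type} (β : Ω → B) (y : Ω → Y) {i : ℕ} (hi : i < N) :
    CH q (fun w => y (o (i + 1) w)) (fun w => (β (o 0 w), K i (o (i + 1) w))) =
      CH p y (K i) := by
  have hq0 := h.isLaw.nonneg
  have h1 : CI q (fun w => y (o (i + 1) w)) (fun w => β (o 0 w)) (fun w => K i (o i w)) :=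
    (((h.ci i hi).mono_left hq0 (A' := fun w => β (o 0 w))
      (fun _ _ _ _ e => congrArg β (Prod.ext_iff.mp e).1)).mono_right hq0
      (B' := fun w => y (o (i + 1) w)) (fun _ _ _ _ e => congrArg y (Prod.ext_iff.mp e).1)).symm hq0
  unfold CI at h1
  have e1 : CH q (fun w => y (o (i + 1) w)) (fun w => (β (o 0 w), K i (o (i + 1) w))) =
      CH q (fun w => y (o (i + 1) w)) (fun w => (β (o 0 w), K i (o i w))) := by
    refine CH_congr hq0 (fun _ _ _ _ e => (Prod.ext_iff.mp e).1)
      (fun _ _ _ _ e => (Prod.ext_iff.mp e).1) ?_ ?_ <;>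
    · intro w w' hw hw' e
      simp only [Prod.mk.injEq] at e ⊢
      refine ⟨e.1, ?_⟩
      first
        | (rw [h.key w hw i hi, h.key w' hw' i hi]; exact e.2)
        | (rw [← h.key w hw i hi, ← h.key w' hw' i hi]; exact e.2)
  have e2 : CH q (fun w => y (o (i + 1) w)) (fun w => K i (o i w)) =
      CH q (fun w => y (o (i + 1) w)) (fun w => K i (o (i + 1) w)) := by
    refine CH_congr hq0 (fun _ _ _ _ e => (Prod.ext_iff.mp e).1)
      (fun _ _ _ _ e => (Prod.ext_iff.mp e).1) ?_ ?_ <;>
    · intro w w' hw hw' e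
      first
        | (show K i (o i w) = K i (o i w'); rw [h.key w hw i hi, h.key w' hw' i hi]; exact e)
        | (show K i (o (i + 1) w) = K i (o (i + 1) w')
           rw [← h.key w hw i hi, ← h.key w' hw' i hi]; exact e)
  rw [e1, h1, e2]
  exact (h.marg (i + 1) hi).CH y (K i)

/-- The whole information is bounded by the entropy given a constant label. -/
lemma Wlk.top (h : Wlk p K N q o) {B L : Type} (β : Ω → B) {lb : Ω → L}
    (hlb : ∀ i < N, Det p (K i) lb) {i : ℕ} (hi : i ≤ N) :
    CH q (fun w => β (o 0 w)) (o i) ≤ CH p β lb := by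
  have hq0 := h.isLaw.nonneg
  have h1 : CH q (fun w => β (o 0 w)) (o i) ≤
      CH q (fun w => β (o 0 w)) (fun w => lb (o 0 w)) := by
    refine CH_mono_cond hq0 ?_
    intro w w' hw hw' e
    show lb (o 0 w) = lb (o 0 w')
    rw [← h.const hlb hw i hi, ← h.const hlb hw' i hi, e]
  exact h1.trans_eq ((h.marg 0 (Nat.zero_le _)).CH β lb)

/-- A good length. -/
theorem Wlk.good (h : Wlk p K (N + 1) q o) (hN : 1 ≤ N) {B L : Type} (β : Ω → B) {lb : Ω → L}
    (hlb : ∀ i < N + 1, Det p (K i) lb) :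
    ∃ i, 1 ≤ i ∧ i ≤ N ∧
      CH q (fun w => β (o 0 w)) (o (i + 1)) - CH q (fun w => β (o 0 w)) (o i) ≤
        CH p β lb / N := by
  classical
  have hq0 := h.isLaw.nonneg
  by_contra hcon
  push Not at hcon
  set c : ℕ → ℝ := fun i => CH q (fun w => β (o 0 w)) (o i) with hc
  have h1 : ∀ n ≤ N, c 1 + n * (CH p β lb / N) ≤ c (n + 1) := by
    intro n
    induction n with
    | zero => intro _; simp
    | succ n ih =>
      intro hn
      have h2 := ih (by omega)
      have h3 := hcon (n + 1) (by omega) hn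
      push_cast
      have h4 : CH p β lb / N < c (n + 1 + 1) - c (n + 1) := h3
      linarith
  have h2 := hcon N hN le_rfl
  have h3 := h1 (N - 1) (by omega)
  have h4 : c (N + 1) ≤ CH p β lb := h.top β hlb le_rfl
  have h5 : 0 ≤ c 1 := CH_nonneg hq0 _ _
  have hN0 : (0 : ℝ) < N := by exact_mod_cast hN
  have h6 : CH p β lb / N < c (N + 1) - c N := h2
  have h7 : N - 1 + 1 = N := by omega
  rw [h7] at h3
  have h8 : ((N - 1 : ℕ) : ℝ) = N - 1 := by
    rw [Nat.cast_sub hN]
    simp
  rw [h8] at h3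
  have h9 : (N : ℝ) * (CH p β lb / N) = CH p β lb := by
    field_simp
  nlinarith

end

end Pool.ALG8
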