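import Pool.Agent.H37.M3F.Abs
import Pool.Agent.H8.ALG.Wlk

/-!
# Test functions along a walk

`fwd`: the size of a test function, which is a function of the first point, grows along a walk by
at most the budget. `go`: if the walk ends in a position which is almost full in a box, a test
function of size one in the box cannot be small at the first point.
-/

set_option autoImplicit false

namespace Pool.ALG8

open Finset Real
open Pool.Agent.H49.Ent Pool.Agent.H32.Dense Pool.STK Pool.KAF Pool.KAL Pool.KS3 Pool.M3F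

section

variable {Ω Λ L B Y W : Type} [Fintype Ω] [Fintype W] {p : Ω → ℝ} {K : ℕ → Ω → Λ} {N : ℕ}
  {q : W → ℝ} {o : ℕ → W → Ω} {lb : Ω → L} {β : Ω → B} {ψ : B → Ω → ℝ} {Yl : ℕ → Ω → Y}
  {adm : ℕ → B → Λ → ℝ → Prop} {cap : ℕ → Λ → ℝ} {κ Cf e₁ : ℝ}

/-- One step. -/
lemma fwd_one (h : Wlk p K N q o) (hκ : 0 ≤ κ) (hlb : ∀ i < N, Det p (K i) lb) {i : ℕ}
    (hi : i < N) (hfil : FillP p (fun ω => ω) (K i) (Yl i) ψ (adm i) κ (cap i) Cf)
    (hadm : ∀ ω ω', 0 < p ω → 0 < p ω' → lb ω = lb ω' → adm i (β ω) (K i ω') (ψ (β ω) ω'))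
    (he : Ex p (fun ω => cap i (K i ω)) - CH p (Yl i) (K i) ≤ e₁) :
    Ex q (fun w => ψ (β (o 0 w)) (o (i + 1) w)) ≤ Ex q (fun w => ψ (β (o 0 w)) (o i w)) +
      κ * ((CH q (fun w => β (o 0 w)) (o (i + 1)) - CH q (fun w => β (o 0 w)) (o i)) +
        (e₁ + Cf)) := by
  classical
  have hq0 := h.isLaw.nonneg
  -- the largest value on a key
  have hex : ∀ (b : B) (l : Λ), ∃ S : ℝ, (∀ ω', 0 < p ω' → K i ω' = l → ψ b ω' ≤ S) ∧
      ((∃ ω', 0 < p ω' ∧ K i ω' = l) → ∃ ω', 0 < p ω' ∧ K i ω' = l ∧ S = ψ b ω') := by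
    intro b l
    by_cases hne : ∃ ω', 0 < p ω' ∧ K i ω' = l
    · obtain ⟨ω₀, h0, h1⟩ := hne
      obtain ⟨ω', hω', hmax⟩ := Finset.exists_max_image
        (Finset.univ.filter fun ω' => 0 < p ω' ∧ K i ω' = l) (ψ b)
        ⟨ω₀, by simp [h0, h1]⟩
      simp only [Finset.mem_filter, Finset.mem_univ, true_and] at hω' hmax
      exact ⟨ψ b ω', fun ω'' h2 h3 => hmax ω'' ⟨h2, h3⟩, fun _ => ⟨ω', hω'.1, hω'.2, rfl⟩⟩
    · exact ⟨0, fun ω' h2 h3 => absurd ⟨ω', h2, h3⟩ hne, fun h2 => absurd h2 hne⟩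
  choose S hS1 hS2 using hex
  have hp : ∀ j ≤ N, ∀ w, 0 < q w → 0 < p (o j w) := fun j hj w hw =>
    (h.marg j hj).pos hq0 hw
  have key := hfil W q (o i) (fun w => β (o 0 w)) S h.isLaw
    (fun w hw => ⟨o i w, hp i hi.le w hw, rfl⟩) (by
      intro w hw
      obtain ⟨ω', h1, h2, h3⟩ := hS2 (β (o 0 w)) (K i (o i w)) ⟨o i w, hp i hi.le w hw, rfl⟩
      rw [h3, ← h2]
      refine hadm (o 0 w) ω' (hp 0 (Nat.zero_le _) w hw) h1 ?_
      rw [hlb i hi ω' (o i w) h1 (hp i hi.le w hw) h2]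
      exact (h.const hlb hw i hi.le).symm)
  have h1 : Ex q (fun w => ψ (β (o 0 w)) (o (i + 1) w)) ≤
      Ex q (fun w => S (β (o 0 w)) (K i (o i w))) := by
    unfold Ex
    refine Finset.sum_le_sum fun w _ => ?_
    rcases eq_or_lt_of_le (hq0 w) with h0 | h0
    · rw [← h0]
      simp
    · exact mul_le_mul_of_nonneg_left
        (hS1 _ _ _ (hp (i + 1) hi w h0) (h.key w h0 i hi).symm) h0.le
  have h2 : Ex q (fun w => cap i (K i (o i w))) = Ex p (fun ω => cap i (K i ω)) :=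
    (h.marg i hi.le).ex (fun ω => cap i (K i ω))
  have h3 := h.inf β (Yl i) hi
  have h4 : (Ex q (fun w => cap i (K i (o i w))) -
      CH q (fun w => Yl i (o i w)) (fun w => (β (o 0 w), K i (o i w)))) + Cf ≤
      (CH q (fun w => β (o 0 w)) (o (i + 1)) - CH q (fun w => β (o 0 w)) (o i)) + (e₁ + Cf) := by
    rw [h2]
    linarith
  exact h1.trans (key.trans (add_le_add le_rfl (mul_le_mul_of_nonneg_left h4 hκ)))

/-- The forward budget. -/
theorem fwd (h : Wlk p K N q o) (hκ : 0 ≤ κ) (hlb : ∀ i < N, Det p (K i) lb)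
    (hfil : ∀ i < N, FillP p (fun ω => ω) (K i) (Yl i) ψ (adm i) κ (cap i) Cf)
    (hadm : ∀ i < N, ∀ ω ω', 0 < p ω → 0 < p ω' → lb ω = lb ω' →
      adm i (β ω) (K i ω') (ψ (β ω) ω'))
    (he : ∀ i < N, Ex p (fun ω => cap i (K i ω)) - CH p (Yl i) (K i) ≤ e₁) :
    Ex q (fun w => ψ (β (o 0 w)) (o N w)) ≤ Ex q (fun w => ψ (β (o 0 w)) (o 0 w)) +
      κ * (CH q (fun w => β (o 0 w)) (o N) + N * (e₁ + Cf)) := by
  have hq0 := h.isLaw.nonneg
  have h1 : ∀ n ≤ N, Ex q (fun w => ψ (β (o 0 w)) (o n w)) ≤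
      Ex q (fun w => ψ (β (o 0 w)) (o 0 w)) +
      κ * ((CH q (fun w => β (o 0 w)) (o n) - CH q (fun w => β (o 0 w)) (o 0)) +
        n * (e₁ + Cf)) := by
    intro n
    induction n with
    | zero => intro _; simp
    | succ n ih =>
      intro hn
      have h2 := ih (by omega)
      have h3 := fwd_one (β := β) h hκ hlb hn (hfil n hn) (hadm n hn) (he n hn)
      push_cast
      calc Ex q (fun w => ψ (β (o 0 w)) (o (n + 1) w)) ≤ _ := h3
        _ ≤ _ := add_le_add h2 le_rfl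
        _ = _ := by ring
  have h2 := h1 N le_rfl
  have h3 : 0 ≤ CH q (fun w => β (o 0 w)) (o 0) := CH_nonneg hq0 _ _
  refine h2.trans (add_le_add le_rfl (mul_le_mul_of_nonneg_left ?_ hκ))
  linarith

/-- **The core.** -/
theorem go (h : Wlk p K N q o) (hκ : 0 ≤ κ) (hlb : ∀ i < N, Det p (K i) lb)
    (hfil : ∀ i < N, FillP p (fun ω => ω) (K i) (Yl i) ψ (adm i) κ (cap i) Cf)
    (hadm : ∀ i < N, ∀ ω ω', 0 < p ω → 0 < p ω' → lb ω = lb ω' →
      adm i (β ω) (K i ω') (ψ (β ω) ω'))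
    (he : ∀ i < N, Ex p (fun ω => cap i (K i ω)) - CH p (Yl i) (K i) ≤ e₁)
    {Y' : Type} {Yb : Ω → Y'} {adm' : B → L → ℝ → Prop} {cap' : L → ℝ} {κ' Cf' e₂ sm a : ℝ}
    (hfil' : FillP p (fun ω => ω) lb Yb ψ adm' κ' cap' Cf')
    (hadm' : ∀ ω ω', 0 < p ω → 0 < p ω' → lb ω = lb ω' → adm' (β ω) (lb ω') 0)
    (hκ' : 0 ≤ κ')
    (he' : Ex p (fun ω => cap' (lb ω)) -
      CH q (fun w => Yb (o N w)) (fun w => (β (o 0 w), lb (o N w))) ≤ e₂)
    (hsm : ∀ ω, 0 < p ω → ψ (β ω) ω ≤ -sm) (ha : CH p β lb ≤ a) :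
    sm ≤ κ * (a + N * (e₁ + Cf)) + κ' * (e₂ + Cf') := by
  have hq0 := h.isLaw.nonneg
  have h1 := fwd (β := β) h hκ hlb hfil hadm he
  have h2 : CH q (fun w => β (o 0 w)) (o N) ≤ a := (h.top β hlb le_rfl).trans ha
  have h3 : Ex q (fun w => ψ (β (o 0 w)) (o 0 w)) ≤ -sm := by
    rw [(h.marg 0 (Nat.zero_le _)).ex (fun ω => ψ (β ω) ω)]
    have hp := h.marg 0 (Nat.zero_le _)
    have hp1 : ∑ ω, p ω = 1 := by rw [← hp.sum]; exact h.isLaw.sum_one
    have hp0 : ∀ ω, 0 ≤ p ω := fun ω => by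
      rw [← hp ω]
      exact Finset.sum_nonneg fun w _ => by split_ifs; exacts [hq0 w, le_rfl]
    unfold Ex
    calc ∑ ω, p ω * ψ (β ω) ω ≤ ∑ ω, p ω * -sm := by
          refine Finset.sum_le_sum fun ω _ => ?_
          rcases eq_or_lt_of_le (hp0 ω) with h0 | h0
          · rw [← h0]
            simp
          · exact mul_le_mul_of_nonneg_left (hsm ω h0) h0.le
      _ = -sm := by rw [← Finset.sum_mul, hp1, one_mul]
  have key := hfil' W q (o N) (fun w => β (o 0 w)) (fun _ _ => 0) h.isLaw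
    (fun w hw => ⟨o N w, (h.marg N le_rfl).pos hq0 hw, rfl⟩) (by
      intro w hw
      exact hadm' (o 0 w) (o N w) ((h.marg 0 (Nat.zero_le _)).pos hq0 hw)
        ((h.marg N le_rfl).pos hq0 hw) (h.const hlb hw N le_rfl).symm)
  have h4 : Ex q (fun w => cap' (lb (o N w))) = Ex p (fun ω => cap' (lb ω)) :=
    (h.marg N le_rfl).ex (fun ω => cap' (lb ω))
  have h5 : Ex q (fun _ : W => (0 : ℝ)) = 0 := by
    unfold Ex
    simp
  rw [h5] at key
  have h6 : (Ex q (fun w => cap' (lb (o N w))) -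
      CH q (fun w => Yb (o N w)) (fun w => (β (o 0 w), lb (o N w)))) + Cf' ≤ e₂ + Cf' := by
    rw [h4]
    linarith
  have h7 := mul_le_mul_of_nonneg_left h6 hκ'
  have h8 := mul_le_mul_of_nonneg_left
    (show CH q (fun w => β (o 0 w)) (o N) + N * (e₁ + Cf) ≤ a + N * (e₁ + Cf) by linarith) hκ
  linarith

end

end Pool.ALG8
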