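import Pool.Agent.H37.M3F.Cor
import Pool.Agent.H8.ALG.Go

/-!
# Test polynomials on a chart which is filled by walks along leaves

The points have ambient coordinates `z : Ω → σ → ℝ`. The label `lb` has a chart (the box), of
arbitrary degree `k₀`; the keys `K i` have charts (the leaves) of degree `k₁`; the walk resamples
the point inside the leaves of its keys. `go_chart`: no family of test polynomials of degree `D` can
be small near its point, beyond `κ` times the entropy of the family, `κ = (2 k₁ + 1) D + 1`.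
`rel`: if all the charts of the labels are bad for the degree `D` then the cells are not small.
-/

set_option autoImplicit false

namespace Pool.ALG8

open Finset Real
open Pool.Agent.H49.Ent Pool.Agent.H32.Dense Pool.STK Pool.KAF Pool.KAL Pool.KS3 Pool.M3F

/-- Points on charts: `Φ c` is the chart of the label `c`, `Y` the position on the grid. -/
structure Onc {Ω Δ σ : Type} {d : ℕ} (k₀ : ℕ) (C₀ : ℝ) (M : ℕ) (p : Ω → ℝ) (z : Ω → σ → ℝ)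
    (cl : Ω → Δ) (Y : Ω → Fin d → ℕ) (Ng : Δ → Fin d → ℕ)
    (Φ : Δ → σ → MvPolynomial (Fin d) ℝ) : Prop where
  chart : ∀ ω, 0 < p ω → ChartOK k₀ C₀ M (Ng (cl ω)) (Φ (cl ω))
  lt : ∀ ω, 0 < p ω → ∀ i, Y ω i < Ng (cl ω) i
  near : ∀ ω, 0 < p ω → ∀ o, |z ω o - cpt (Φ (cl ω)) (gpos (Ng (cl ω)) (Y ω)) o| ≤ C₀ / M

/-- **Test polynomials.** -/
theorem go_chart (σ : Type) [Fintype σ] (d dl D k₀ k₁ : ℕ) : ∃ C : ℝ, 0 ≤ C ∧
    ∀ (C₀ : ℝ) (Ω Λ L B W : Type) [Fintype Ω] [Fintype W] (p : Ω → ℝ) (K : ℕ → Ω → Λ) (N : ℕ)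
      (q : W → ℝ) (o : ℕ → W → Ω) (lb : Ω → L) (β : Ω → B) (z : Ω → σ → ℝ) (M : ℕ)
      (Yl : ℕ → Ω → Fin dl → ℕ) (Nl : ℕ → Λ → Fin dl → ℕ)
      (Φl : ℕ → Λ → σ → MvPolynomial (Fin dl) ℝ)
      (Yb : Ω → Fin d → ℕ) (Nb : L → Fin d → ℕ) (Φb : L → σ → MvPolynomial (Fin d) ℝ)
      (P : B → MvPolynomial σ ℝ) (sm a e₁ e₂ : ℝ),
      1 ≤ C₀ → 1 ≤ M → Wlk p K N q o → (∀ i < N, Det p (K i) lb) →
      (∀ i < N, Onc k₁ C₀ M p z (K i) (Yl i) (Nl i) (Φl i)) →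
      Onc k₀ C₀ M p z lb Yb Nb Φb →
      (∀ i < N, Ex p (fun ω => ∑ j, Real.log (Nl i (K i ω) j)) - CH p (Yl i) (K i) ≤ e₁) →
      Ex p (fun ω => ∑ j, Real.log (Nb (lb ω) j)) -
        CH q (fun w => Yb (o N w)) (fun w => (β (o 0 w), lb (o N w))) ≤ e₂ →
      (∀ ω, 0 < p ω → P (β ω) ≠ 0 ∧ (P (β ω)).totalDegree ≤ D ∧ csC (Φb (lb ω)) (P (β ω)) = 1 ∧
        Psi (P (β ω)) (C₀ / M) (z ω) ≤ Real.exp (-sm)) →
      CH p β lb ≤ a →
      sm ≤ (((2 * k₁ + 1) * D + 1 : ℕ) : ℝ) * (a + N * (e₁ + C)) +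
        (((2 * k₀ + 1) * D + 1 : ℕ) : ℝ) * (e₂ + C) := by
  classical
  obtain ⟨C₁, hC₁, hfl⟩ := fil_chart (rik_thm rmg_thm gvi_thm) σ dl D k₁
  obtain ⟨C₂, hC₂, hfb⟩ := fil_chart (rik_thm rmg_thm gvi_thm) σ d D k₀
  refine ⟨C₁ + C₂, by positivity, ?_⟩
  intro C₀ Ω Λ L B W _ _ p K N q o lb β z M Yl Nl Φl Yb Nb Φb P sm a e₁ e₂ hC₀ hM hw hlb hl hb he₁
    he₂ hP ha
  have hM1 : (1 : ℝ) ≤ M := by exact_mod_cast hM
  have hM0 : (0 : ℝ) < M := by linarith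
  set h : ℝ := C₀ / M with hh
  have hh0 : 0 < h := by positivity
  set κ : ℝ := (((2 * k₁ + 1) * D + 1 : ℕ) : ℝ) with hκ
  set κ' : ℝ := (((2 * k₀ + 1) * D + 1 : ℕ) : ℝ) with hκ'
  have hκ0 : 0 ≤ κ := Nat.cast_nonneg _
  have hκ'0 : 0 ≤ κ' := Nat.cast_nonneg _
  have key := go (p := p) (K := K) (N := N) (q := q) (o := o) (lb := lb) (β := β)
    (ψ := fun b ω => Real.log (Psi (P b) h (z ω))) (Yl := Yl)
    (adm := fun i => admC D h (Φl i) P) (cap := fun i l => ∑ j, Real.log (Nl i l j))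
    (κ := κ) (Cf := C₁) (e₁ := e₁) (Yb := Yb) (adm' := admC D h Φb P)
    (cap' := fun l => ∑ j, Real.log (Nb l j)) (κ' := κ') (Cf' := C₂) (e₂ := e₂) (sm := sm)
    (a := a) hw hκ0 hlb
    (fun i hi => hfl C₀ Ω Ω B Λ p (fun ω => ω) M (K i) (Nl i) (Φl i) (Yl i) z P hC₀ hM
      (hl i hi).chart (hl i hi).lt (hl i hi).near)
    (by
      intro i hi ω ω' hω hω' _
      exact ⟨(hP ω hω).1, (hP ω hω).2.1, gpos (Nl i (K i ω')) (Yl i ω'),
        gpos_mem ((hl i hi).lt ω' hω'), z ω', (hl i hi).near ω' hω', le_rfl⟩)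
    he₁
    (hfb C₀ Ω Ω B L p (fun ω => ω) M lb Nb Φb Yb z P hC₀ hM hb.chart hb.lt hb.near)
    (by
      intro ω ω' hω hω' hll
      obtain ⟨us, hus, hus'⟩ := cs_attained (fun _ : Fin d => (0 : ℝ)) 1 zero_le_one
        (MvPolynomial.bind₁ (Φb (lb ω')) (P (β ω)))
      refine ⟨(hP ω hω).1, (hP ω hω).2.1, us, ?_, cpt (Φb (lb ω')) us, ?_, ?_⟩
      · intro i
        have := hus i
        refine ⟨this.1, ?_⟩
        linarith [this.2]
      · intro o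
        rw [sub_self, abs_zero]
        exact hh0.le
      · have h1 : cs (fun _ : Fin d => (0 : ℝ)) 1
            (MvPolynomial.bind₁ (Φb (lb ω')) (P (β ω))) = 1 := by
          rw [← hll]
          exact (hP ω hω).2.2.1
        rw [h1, eval_bind] at hus'
        have h2 := abs_eval_le_Psi (P (β ω)) h (cpt (Φb (lb ω')) us)
        rw [hus'] at h2
        exact Real.log_nonneg h2)
    hκ'0 he₂
    (by
      intro ω hω
      have h1 := (hP ω hω).2.2.2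
      have h2 := Psi_pos _ (hP ω hω).1 h hh0 (z ω)
      have h3 := Real.log_le_log h2 h1
      rwa [Real.log_exp] at h3) ha
  have h1 : (N : ℝ) * (e₁ + C₁) ≤ N * (e₁ + (C₁ + C₂)) :=
    mul_le_mul_of_nonneg_left (by linarith) (Nat.cast_nonneg N)
  have h2 := mul_le_mul_of_nonneg_left
    (show a + N * (e₁ + C₁) ≤ a + N * (e₁ + (C₁ + C₂)) by linarith) hκ0
  have h3 := mul_le_mul_of_nonneg_left (show e₂ + C₂ ≤ e₂ + (C₁ + C₂) by linarith) hκ'0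
  linarith

/-- The small cell of the position in the box. -/
def sc8 {Ω L : Type} {d : ℕ} (Kc : ℕ) (lb : Ω → L) (Yb : Ω → Fin d → ℕ)
    (Nb : L → Fin d → ℕ) (ω : Ω) : Fin d → ℕ := fun i => Yb ω i * Kc / Nb (lb ω) i

/-- The entropy of the small cell. -/
lemma sc8_ent {Ω L : Type} [Fintype Ω] {d : ℕ} {p : Ω → ℝ} (hp : IsLaw p) (Kc : ℕ) (hK : 1 ≤ Kc)
    {lb : Ω → L} {Yb : Ω → Fin d → ℕ} {Nb : L → Fin d → ℕ}
    (hlt : ∀ ω, 0 < p ω → ∀ i, Yb ω i < Nb (lb ω) i) :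
    CH p (fun ω => (lb ω, sc8 Kc lb Yb Nb ω)) lb ≤ d * Real.log Kc := by
  classical
  have hp0 := hp.nonneg
  have h1 := CH_le_card hp0 hp.sum_one (fun ω => sc8 Kc lb Yb Nb ω) lb
    (fun _ => Fintype.piFinset (fun _ : Fin d => Finset.range Kc)) (by
    intro ω hω
    rw [Fintype.mem_piFinset]
    intro i
    rw [Finset.mem_range]
    have h1 := hlt ω hω i
    simp only [sc8]
    rw [Nat.div_lt_iff_lt_mul (lt_of_le_of_lt (Nat.zero_le _) h1), mul_comm Kc]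
    exact Nat.mul_lt_mul_of_pos_right h1 hK)
  rw [Ex_const hp.sum_one, Fintype.card_piFinset] at h1
  simp only [Finset.card_range, Finset.prod_const, Finset.card_univ, Fintype.card_fin] at h1
  push_cast at h1
  rw [Real.log_pow] at h1
  refine le_trans (le_of_eq ?_) h1
  refine CH_congr hp0 ?_ ?_ (fun _ _ _ _ h => h) (fun _ _ _ _ h => h) <;>
  · intro ω ω' _ _ h
    simp only [Prod.mk.injEq] at h ⊢
    tauto

/-- **Relations of universal degree.** If all the charts of the labels are bad for the degree `D`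
then the cells are not small. -/
theorem rel (σ : Type) [Fintype σ] (d dl D j k₀ k₁ : ℕ)
    (hch : (j + d).choose d < (D + Fintype.card σ).choose (Fintype.card σ))
    (hj : ((2 * k₁ + 1) * D + 1) * d ≤ j) : ∃ C : ℝ, 0 ≤ C ∧
    ∀ (C₀ C₁ : ℝ) (Ω Λ L W : Type) [Fintype Ω] [Fintype W] (p : Ω → ℝ) (K : ℕ → Ω → Λ) (N : ℕ)
      (q : W → ℝ) (o : ℕ → W → Ω) (lb : Ω → L) (z : Ω → σ → ℝ) (M Kc : ℕ)
      (Yl : ℕ → Ω → Fin dl → ℕ) (Nl : ℕ → Λ → Fin dl → ℕ)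
      (Φl : ℕ → Λ → σ → MvPolynomial (Fin dl) ℝ)
      (Yb : Ω → Fin d → ℕ) (Nb : L → Fin d → ℕ) (Φb : L → σ → MvPolynomial (Fin d) ℝ)
      (e₁ e₂ : ℝ),
      1 ≤ C₀ → 1 ≤ C₁ → 1 ≤ M → 1 ≤ Kc → IsLaw p → Wlk p K N q o → (∀ i < N, Det p (K i) lb) →
      (∀ i < N, Onc k₁ C₀ M p z (K i) (Yl i) (Nl i) (Φl i)) →
      Onc k₀ C₀ M p z lb Yb Nb Φb →
      (∀ ω, 0 < p ω → BadC D (C₀ / M) (C₁ / (Kc : ℝ) ^ (j + 1)) (Φb (lb ω))) →
      0 ≤ e₁ → 0 ≤ e₂ →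
      (∀ i < N, Ex p (fun ω => ∑ j, Real.log (Nl i (K i ω) j)) - CH p (Yl i) (K i) ≤ e₁) →
      Ex p (fun ω => ∑ j, Real.log (Nb (lb ω) j)) - CH q (fun w => Yb (o N w))
        (fun w => ((lb (o 0 w), sc8 Kc lb Yb Nb (o 0 w)), lb (o N w))) ≤ e₂ →
      Real.log Kc ≤ C * (N * (e₁ + 1) + e₂ + Real.log C₁ + 1) := by
  classical
  obtain ⟨Cs', hCs', hsml⟩ := sml_chart σ d D j k₀ hch
  obtain ⟨Cg, hCg, hgo⟩ := go_chart σ d dl D k₀ k₁
  set κ : ℕ := (2 * k₁ + 1) * D + 1 with hκ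
  set κ' : ℕ := (2 * k₀ + 1) * D + 1 with hκ'
  have hlCs' : 0 ≤ Real.log Cs' := Real.log_nonneg hCs'
  refine ⟨Real.log Cs' + (D + 1) + κ * (1 + Cg) + κ' * (1 + Cg), by positivity, ?_⟩
  intro C₀ C₁ Ω Λ L W _ _ p K N q o lb z M Kc Yl Nl Φl Yb Nb Φb e₁ e₂ hC₀ hC₁ hM hK hp hw hlb hl hb
    hbad he₁0 he₂0 he₁ he₂
  set Cs : ℝ := Cs' * C₁ ^ (D + 1) with hCsdef
  have hC₁p : (1 : ℝ) ≤ C₁ ^ (D + 1) := one_le_pow₀ hC₁
  have hCs : 1 ≤ Cs := by nlinarith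
  have hlC₁ : 0 ≤ Real.log C₁ := Real.log_nonneg hC₁
  have hlCs : Real.log Cs = Real.log Cs' + (D + 1) * Real.log C₁ := by
    rw [hCsdef, Real.log_mul (by linarith) (by positivity), Real.log_pow]
    push_cast
    ring
  have hK1 : (1 : ℝ) ≤ Kc := by exact_mod_cast hK
  have hK0 : (0 : ℝ) < Kc := by linarith
  have hM1 : (1 : ℝ) ≤ M := by exact_mod_cast hM
  have hM0 : (0 : ℝ) < M := by linarith
  set h : ℝ := C₀ / M with hh
  have hh0 : 0 < h := by positivity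
  have hscK : ∀ ω, 0 < p ω → ∀ i, sc8 Kc lb Yb Nb ω i < Kc := by
    intro ω hω i
    have h1 := hb.lt ω hω i
    simp only [sc8]
    rw [Nat.div_lt_iff_lt_mul (lt_of_le_of_lt (Nat.zero_le _) h1), mul_comm Kc]
    exact Nat.mul_lt_mul_of_pos_right h1 hK
  have hscp : ∀ ω, 0 < p ω → ∀ i, (sc8 Kc lb Yb Nb ω i : ℝ) / Kc ≤
      gpos (Nb (lb ω)) (Yb ω) i ∧
      gpos (Nb (lb ω)) (Yb ω) i ≤ (sc8 Kc lb Yb Nb ω i : ℝ) / Kc + 1 / Kc := by
    intro ω hω i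
    have h1 := hb.lt ω hω i
    have h2 : 0 < Nb (lb ω) i := lt_of_le_of_lt (Nat.zero_le _) h1
    have h3 : (0 : ℝ) < Nb (lb ω) i := by exact_mod_cast h2
    have h4 : sc8 Kc lb Yb Nb ω i * Nb (lb ω) i ≤ Yb ω i * Kc := Nat.div_mul_le_self _ _
    have h5 : Yb ω i * Kc < (sc8 Kc lb Yb Nb ω i + 1) * Nb (lb ω) i := by
      simp only [sc8]
      have h6 := Nat.div_add_mod (Yb ω i * Kc) (Nb (lb ω) i)
      have h7 := Nat.mod_lt (Yb ω i * Kc) h2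
      have h8 : (Yb ω i * Kc / Nb (lb ω) i + 1) * Nb (lb ω) i =
          Nb (lb ω) i * (Yb ω i * Kc / Nb (lb ω) i) + Nb (lb ω) i := by ring
      rw [h8]
      omega
    unfold gpos
    have h4' : (sc8 Kc lb Yb Nb ω i : ℝ) * Nb (lb ω) i ≤ Yb ω i * Kc := by
      exact_mod_cast h4
    have h5' : (Yb ω i : ℝ) * Kc ≤ (sc8 Kc lb Yb Nb ω i + 1) * Nb (lb ω) i := by
      exact_mod_cast h5.le
    constructor
    · rw [div_le_div_iff₀ hK0 h3]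
      exact h4'
    · rw [← add_div, div_le_div_iff₀ h3 hK0]
      exact h5'
  -- the test polynomials
  have hexP : ∀ b : L × (Fin d → ℕ), ∃ P : MvPolynomial σ ℝ,
      (∃ ω, 0 < p ω ∧ (lb ω, sc8 Kc lb Yb Nb ω) = b) →
        P ≠ 0 ∧ P.totalDegree ≤ D ∧ csC (Φb b.1) P = 1 ∧
        ∀ u : Fin d → ℝ, (∀ i, (b.2 i : ℝ) / Kc ≤ u i ∧ u i ≤ (b.2 i : ℝ) / Kc + 1 / Kc) →
          ∀ z : σ → ℝ, (∀ o, |z o - cpt (Φb b.1) u o| ≤ h) → Psi P h z ≤ Cs / Kc ^ (j + 1) := by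
    intro b
    by_cases hβ : ∃ ω, 0 < p ω ∧ (lb ω, sc8 Kc lb Yb Nb ω) = b
    · obtain ⟨ω, hω, hβ⟩ := hβ
      subst hβ
      obtain ⟨P, h1, h2, h3, h4⟩ := hsml C₁ Kc h (Φb (lb ω))
        (fun i => (sc8 Kc lb Yb Nb ω i : ℝ) / Kc) hC₁ hK1 hh0.le (hb.chart ω hω).deg
        (hbad ω hω) (by
          intro i
          have h5 : (sc8 Kc lb Yb Nb ω i : ℝ) + 1 ≤ Kc := by exact_mod_cast hscK ω hω i
          refine ⟨by positivity, ?_⟩
          rw [← add_div, div_le_one hK0]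
          exact h5)
      exact ⟨P, fun _ => ⟨h1, h2, h3, h4⟩⟩
    · exact ⟨0, fun h' => absurd h' hβ⟩
  choose P hP using hexP
  set β : Ω → L × (Fin d → ℕ) := fun ω => (lb ω, sc8 Kc lb Yb Nb ω) with hβdef
  have key := hgo C₀ Ω Λ L (L × (Fin d → ℕ)) W p K N q o lb β z M Yl Nl Φl Yb Nb Φb P
    ((j + 1) * Real.log Kc - Real.log Cs) (d * Real.log Kc) e₁ e₂ hC₀ hM hw hlb hl hb he₁ he₂
    (by
      intro ω hω
      obtain ⟨h1, h2, h3, h4⟩ := hP (β ω) ⟨ω, hω, rfl⟩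
      refine ⟨h1, h2, h3, ?_⟩
      refine (h4 _ (hscp ω hω) (z ω) (hb.near ω hω)).trans (le_of_eq ?_)
      rw [neg_sub, Real.exp_sub, Real.exp_log (by linarith)]
      congr 1
      rw [show ((j : ℝ) + 1) * Real.log Kc = ((j + 1 : ℕ) : ℝ) * Real.log Kc by push_cast; ring,
        ← Real.log_pow, Real.exp_log (by positivity)])
    (sc8_ent hp Kc hK hb.lt)
  -- the sum
  have hκ0 : (0 : ℝ) ≤ κ := Nat.cast_nonneg κ
  have hκ'0 : (0 : ℝ) ≤ κ' := Nat.cast_nonneg κ'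
  have hN : (0 : ℝ) ≤ N := Nat.cast_nonneg N
  have hlK : 0 ≤ Real.log Kc := Real.log_nonneg hK1
  have hj' : ((κ * d : ℕ) : ℝ) ≤ j := by exact_mod_cast hj
  push_cast at hj'
  have B3 : (κ : ℝ) * d * Real.log Kc ≤ j * Real.log Kc := mul_le_mul_of_nonneg_right hj' hlK
  set V : ℝ := N * (e₁ + 1) + e₂ + Real.log C₁ + 1 with hV
  have n1 : (0 : ℝ) ≤ N * (e₁ + 1) := by positivity
  have n2 : (0 : ℝ) ≤ N * e₁ := by positivity
  have hV1 : 1 ≤ V := by rw [hV]; linarith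
  have w1 : Real.log Cs' * 1 ≤ Real.log Cs' * V := mul_le_mul_of_nonneg_left hV1 hlCs'
  have w0 : ((D : ℝ) + 1) * Real.log C₁ ≤ (D + 1) * V :=
    mul_le_mul_of_nonneg_left (by rw [hV]; linarith) (by positivity)
  have w2 : (κ : ℝ) * (N * (e₁ + Cg)) ≤ κ * ((1 + Cg) * V) := by
    refine mul_le_mul_of_nonneg_left ?_ hκ0
    have h1 : (N : ℝ) * (e₁ + Cg) ≤ (1 + Cg) * (N * (e₁ + 1)) := by nlinarith
    have h2 : (1 + Cg) * (N * (e₁ + 1)) ≤ (1 + Cg) * V :=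
      mul_le_mul_of_nonneg_left (by rw [hV]; linarith) (by linarith)
    linarith
  have w3 : (κ' : ℝ) * (e₂ + Cg) ≤ κ' * ((1 + Cg) * V) := by
    refine mul_le_mul_of_nonneg_left ?_ hκ'0
    have h1 : e₂ + Cg ≤ (1 + Cg) * (e₂ + 1) := by nlinarith
    have h2 : (1 + Cg) * (e₂ + 1) ≤ (1 + Cg) * V :=
      mul_le_mul_of_nonneg_left (by rw [hV]; linarith) (by linarith)
    linarith
  rw [hlCs] at key
  nlinarith [key, B3, w0, w1, w2, w3]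

end Pool.ALG8
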